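import Pool.Agent.H404R3.CPUpper2

/-!
# MP_f73150_nt: complete pairwise coprime sequences in short intervals

`max_m F(m,k) = π(k) + 1` fails: the interval `(4, 13]` (so `k = 9`) contains the complete sequence
`5, 7, 8, 9, 11, 13` of length `6 = π(9) + 2`.  For `1 ≤ k ≤ 1000` we determine exactly when the
equality holds.
-/

namespace Pool.Agent.Results.MP_f73150_nt.ShortIntervals

open H404CP

/-- the `k ≤ 1000` for which `max_m F(m,k) = π(k) + 1` -/
def goodK : List ℕ := [1, 2, 3, 4, 5, 6, 7, 8, 11, 12, 13, 14, 17, 18, 19, 20, 23, 24, 29, 30, 31,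
  32, 47, 48, 83, 84, 113, 114]

theorem result :
    IsComplete 4 9 6 ![5, 7, 8, 9, 11, 13] ∧ Nat.primeCounting 9 + 2 = 6 ∧
    (∀ k, 1 ≤ k → k ≤ 1000 → k ∈ goodK → IsGreatest (lengths k) (Nat.primeCounting k + 1)) ∧
    (∀ k, 1 ≤ k → k ≤ 1000 → k ∉ goodK → ∃ l ∈ lengths k, Nat.primeCounting k + 2 ≤ l) ∧
    ¬ ∀ k, 1 ≤ k → IsGreatest (lengths k) (Nat.primeCounting k + 1) := by
  have hfail : ∀ k, 1 ≤ k → k ≤ 1000 → k ∉ goodK →
      ∃ l ∈ lengths k, Nat.primeCounting k + 2 ≤ l := by
    intro k h1 h2 h3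
    simp only [goodK, List.mem_cons, List.not_mem_nil, or_false, not_or] at h3
    refine fails h1 h2 ?_ ?_
    · simp only [EqL, List.mem_cons, List.not_mem_nil, or_false, not_or]
      omega
    · simp only [List.mem_cons, List.not_mem_nil, or_false, not_or]
      omega
  refine ⟨⟨?_, ?_, ?_, ?_⟩, by decide +kernel, ?_, hfail, ?_⟩
  · decide
  · decide
  · decide
  · intro n h1 h2
    have h3 : n ≤ 13 := h2
    interval_cases n
    · exact ⟨0, by decide⟩
    · exact ⟨2, by decide⟩
    · exact ⟨1, by decide⟩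
    · exact ⟨2, by decide⟩
    · exact ⟨3, by decide⟩
    · exact ⟨0, by decide⟩
    · exact ⟨4, by decide⟩
    · exact ⟨2, by decide⟩
    · exact ⟨5, by decide⟩
  · intro k _ _ h3
    simp only [goodK, List.mem_cons, List.not_mem_nil, or_false] at h3
    by_cases hk : k ∈ EqL
    · exact holds hk
    · apply holds2
      simp only [EqL, EqL2, List.mem_cons, List.not_mem_nil, or_false, not_or] at hk ⊢
      omega
  · intro h
    obtain ⟨l, hl, hl2⟩ := hfail 9 (by norm_num) (by norm_num) (by decide)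
    have := (h 9 (by norm_num)).2 hl
    omega

end Pool.Agent.Results.MP_f73150_nt.ShortIntervals
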